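import Mathlib

set_option autoImplicit false

namespace Pool.Agent.Results.MP_e258b5_gt.Can

open Set Filter Topology MeasureTheory

/-- open `ω`-cover -/
def Om {X : Type} [TopologicalSpace X] (𝒰 : Set (Set X)) : Prop :=
  (∀ U ∈ 𝒰, IsOpen U) ∧ ⋃₀ 𝒰 = univ ∧ univ ∉ 𝒰 ∧ ∀ F : Set X, F.Finite → ∃ U ∈ 𝒰, F ⊆ U

/-- open `γ`-cover -/
def Ga {X : Type} [TopologicalSpace X] (𝒰 : Set (Set X)) : Prop :=
  (∀ U ∈ 𝒰, IsOpen U) ∧ ⋃₀ 𝒰 = univ ∧ 𝒰.Infinite ∧ ∀ x, {U | U ∈ 𝒰 ∧ x ∉ U}.Finite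

/-- open `γ_p`-cover -/
def Op {X : Type} [TopologicalSpace X] (p : Ultrafilter ℕ) (𝒰 : Set (Set X)) : Prop :=
  (∀ U ∈ 𝒰, IsOpen U) ∧ ⋃₀ 𝒰 = univ ∧
    ∃ u : ℕ → Set X, range u = 𝒰 ∧ ∀ x, {n | x ∈ u n} ∈ p

/-- every member of `A` contains a member of `B` -/
def Choose {X : Type} (A B : Set (Set X) → Prop) : Prop := ∀ 𝒰, A 𝒰 → ∃ 𝒱 ⊆ 𝒰, B 𝒱

def Nonprincipal (p : Ultrafilter ℕ) : Prop := ∀ n, {n} ∉ p

/-- proper ideal on `ℕ` containing the finite sets that is an `F_σ` subset of `2^ℕ` -/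
def FsigmaIdeal (I : Set (Set ℕ)) : Prop :=
  (∀ A ∈ I, ∀ B ⊆ A, B ∈ I) ∧ (∀ A ∈ I, ∀ B ∈ I, A ∪ B ∈ I) ∧ (∀ A, A.Finite → A ∈ I) ∧
    univ ∉ I ∧ ∃ C : ℕ → Set (ℕ → Bool), (∀ k, IsClosed (C k)) ∧
      {b : ℕ → Bool | {n | b n = true} ∈ I} = ⋃ k, C k

/-- every maximal ideal (the dual of a nonprincipal ultrafilter) is Katětov above every `F_σ`
ideal; consistent with ZFC by Cancino-Manríquez (Trans. AMS 2022) -/
def Cancino : Prop := ∀ p : Ultrafilter ℕ, Nonprincipal p → ∀ I, FsigmaIdeal I →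
  ∃ f : ℕ → ℕ, ∀ A ∈ I, f ⁻¹' A ∉ p

lemma compact (H : Cancino) (X : Type) [TopologicalSpace X] [CompactSpace X] (p : Ultrafilter ℕ)
    (hp : Nonprincipal p) : Choose (X := X) Om (Op p) := by
  intro 𝒰 ⟨u1, _, u3, u4⟩
  have : ∀ k, ∃ T : Set (Set X), T ⊆ 𝒰 ∧ T.Finite ∧ ∀ x : Fin k → X, ∃ U ∈ T, ∀ i, x i ∈ U := by
    intro k
    obtain ⟨T, t1, t2, t3⟩ := (isCompact_univ (X := Fin k → X)).elim_finite_subcover_image
      (b := 𝒰) (c := fun U => univ.pi fun _ => U)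
      (fun U hU => isOpen_set_pi finite_univ fun _ _ => u1 U hU) fun x _ => by
        obtain ⟨U, a, b⟩ := u4 (range x) (finite_range x)
        exact mem_biUnion a fun i _ => b ⟨i, rfl⟩
    refine ⟨T, t1, t2, fun x => ?_⟩
    obtain ⟨U, a, b⟩ := mem_iUnion₂.mp (t3 (mem_univ x))
    exact ⟨U, a, fun i => b i (mem_univ i)⟩
  choose T t1 t2 t3 using this
  obtain ⟨u, hu⟩ := (countable_iUnion fun k => (t2 k).countable).exists_eq_range (by
    obtain ⟨U, a, -⟩ := t3 0 Fin.elim0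
    exact ⟨U, mem_iUnion.mpr ⟨0, a⟩⟩)
  have m : ∀ n, u n ∈ 𝒰 := fun n => by
    obtain ⟨k, hk⟩ := mem_iUnion.mp (show u n ∈ ⋃ k, T k from hu ▸ mem_range_self n)
    exact t1 k hk
  have : ∀ n, ∃ y, y ∉ u n := fun n => by
    by_contra t
    push Not at t
    exact u3 (eq_univ_of_forall t ▸ m n)
  choose y hy using this
  obtain ⟨f, hf⟩ := H p hp {B | ∃ F : Set X, F.Finite ∧ ∀ n ∈ B, ¬ F ⊆ u n} ⟨
    fun A ⟨F, a, b⟩ B h => ⟨F, a, fun n hn => b n (h hn)⟩,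
    fun A ⟨F, a, b⟩ B ⟨G, c, d⟩ => ⟨F ∪ G, a.union c, fun n hn t => hn.elim
      (fun s => b n s (subset_union_left.trans t)) fun s => d n s (subset_union_right.trans t)⟩,
    fun A hA => ⟨y '' A, hA.image y, fun n hn t => hy n (t ⟨n, hn, rfl⟩)⟩, by
      rintro ⟨F, a, b⟩
      obtain ⟨k, x, -, rfl⟩ := a.fin_param
      obtain ⟨U, c, d⟩ := t3 k x
      obtain ⟨n, rfl⟩ : U ∈ range u := hu ▸ mem_iUnion.mpr ⟨k, c⟩
      exact b n (mem_univ n) (range_subset_iff.mpr d),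
    fun k => Prod.snd '' {z : (Fin k → X) × (ℕ → Bool) | ∀ n, z.2 n = false ∨ ∃ i, z.1 i ∉ u n},
    fun k => isClosedMap_snd_of_compactSpace _ (by
      simp only [setOf_forall, setOf_or, setOf_exists]
      exact isClosed_iInter fun n => (isClosed_eq (by fun_prop) continuous_const).union
        (isClosed_iUnion_of_finite fun i => (u1 _ (m n)).isClosed_compl.preimage
          (f := fun z : (Fin k → X) × (ℕ → Bool) => z.1 i) (by fun_prop))), by
      ext b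
      simp only [mem_setOf_eq, mem_iUnion]
      constructor
      · rintro ⟨F, a, c⟩
        obtain ⟨k, x, -, rfl⟩ := a.fin_param
        refine ⟨k, (x, b), fun n => ?_, rfl⟩
        cases h : b n
        · exact Or.inl h
        · simpa [range_subset_iff, h] using c n h
      · rintro ⟨k, ⟨x, _⟩, c, rfl⟩
        refine ⟨range x, finite_range x, fun n hn t => ?_⟩
        rcases c n with s | ⟨i, s⟩
        · simp_all
        · exact s (t ⟨i, rfl⟩)⟩
  have e : ∀ x, {n | x ∈ u (f n)} ∈ p := fun x =>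
    Ultrafilter.compl_notMem_iff.mp (hf {n | x ∉ u n} ⟨{x}, finite_singleton x, fun n hn t =>
      hn (t rfl)⟩)
  refine ⟨range fun n => u (f n), range_subset_iff.mpr fun n => m _,
    by rintro _ ⟨n, rfl⟩; exact u1 _ (m _), eq_univ_of_forall fun x => ?_, _, rfl, e⟩
  obtain ⟨n, hn⟩ := p.nonempty_of_mem (e x)
  exact ⟨_, ⟨n, rfl⟩, hn⟩

/-- Under Cancino's hypothesis every compact space has the `γ_p`-property for all `p`, while the
unit interval does not have the `γ`-property. -/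
theorem result (H : Cancino) :
    (∀ (X : Type) [TopologicalSpace X] [CompactSpace X] (p : Ultrafilter ℕ), Nonprincipal p →
      Choose (X := X) Om (Op p)) ∧
    ∃ X : Set ℝ, X.Infinite ∧ (∀ p : Ultrafilter ℕ, Nonprincipal p → Choose (X := X) Om (Op p)) ∧
      ¬ Choose (X := X) Om Ga := by
  refine ⟨compact H, Icc 0 1, Icc_infinite one_pos, compact H _, fun h => ?_⟩
  have om : ∀ F : Set (Icc (0 : ℝ) 1), F.Finite → ∃ U ∈ {U | IsOpen U ∧ volume U < 1 / 2}, F ⊆ U := by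
    intro F hF
    obtain ⟨U, a, b, c⟩ := F.exists_isOpen_lt_of_lt (μ := volume) (1 / 2)
      (by rw [hF.measure_zero]; simp)
    exact ⟨U, ⟨b, c⟩, a⟩
  obtain ⟨𝒱, v1, -, -, v2, v3⟩ := h {U | IsOpen U ∧ volume U < 1 / 2} ⟨fun U hU => hU.1,
    eq_univ_of_forall fun x => by
      obtain ⟨U, a, b⟩ := om {x} (finite_singleton x)
      exact ⟨U, a, b rfl⟩, fun t => by
      have := t.2
      rw [measure_univ] at this
      norm_num at this, om⟩
  let e := v2.natEmbedding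
  have : (univ : Set (Icc (0 : ℝ) 1)) = ⋃ N, ⋂ n ∈ Ici N, (e n).1 := by
    refine (eq_univ_of_forall fun x => ?_).symm
    obtain ⟨N, hN⟩ := ((v3 x).preimage (f := fun n => (e n).1)
      (Subtype.val_injective.comp e.injective).injOn).bddAbove
    refine mem_iUnion.mpr ⟨N + 1, mem_iInter₂.mpr fun n hn => ?_⟩
    by_contra t
    have := hN ⟨(e n).2, t⟩
    simp only [mem_Ici] at hn
    omega
  have t : volume (univ : Set (Icc (0 : ℝ) 1)) ≤ 1 / 2 := by
    rw [this, Monotone.measure_iUnion fun a b ab => biInter_subset_biInter_left (Ici_subset_Ici.mpr ab)]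
    exact iSup_le fun N => (measure_mono (biInter_subset_of_mem (show N ∈ Ici N from le_refl N))).trans
      (v1 (e N).2).2.le
  rw [measure_univ] at t
  norm_num at t

end Pool.Agent.Results.MP_e258b5_gt.Can
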